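import Mathlib
import Pool.Agent.Q182.VRFinal

/-!
# Density and homotopy type of Vietoris–Rips complexes at all scales (MP_bc4532_gt)

Dense samples do not determine the homotopy type of the Vietoris–Rips complex of a closed
Riemannian manifold at every scale: flat tori (and all Riemannian products with a circle) at the
scale of half the length of the circle, and all Riemannian products with a round sphere at the
scale `π`.
-/

namespace Pool.Agent.Results.MP_bc4532_gt.ProductSamples

open Q182.VR

theorem result :
    -- Riemannian products of a circle of length `L` with `N`, at the scale `L / 2`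
    (∀ (L : ℝ) [Fact (0 < L)] (N : Type) [MetricSpace N] [CompactSpace N] [Nonempty N],
      DensityFails (RProd (AddCircle L) N) (L / 2)) ∧
    -- Riemannian products of the round unit sphere of dimension `n ≥ 1` with `N`, at the scale `π`
    (∀ (n : ℕ), 1 ≤ n → ∀ (N : Type) [MetricSpace N] [CompactSpace N] [Nonempty N],
      DensityFails (RProd (Sph n) N) Real.pi) ∧
    -- in a flat torus the scale `L / 2` is less than the diameter
    (∀ (L L' : ℝ) [Fact (0 < L)] [Fact (0 < L')],
      ∃ x y : RProd (AddCircle L) (AddCircle L'), L / 2 < dist x y) :=
  ⟨fun L _ N _ _ _ => circle_main L N, fun n hn N _ _ _ => sphere_main n hn N,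
    fun L L' _ _ => torus_diam L L'⟩

end Pool.Agent.Results.MP_bc4532_gt.ProductSamples
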